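import Pool.Agent.Helper82.CB.Sol
import Pool.Agent.Helper92.CB.Dens
import Pool.Agent.Helper37.PD.Base

/-!
# CB, clean form: `Sol` is potential density of the conic bundle
-/

set_option autoImplicit false

namespace Pool.Agent.Helper82.CB

open Polynomial NumberField AlgebraicGeometry CategoryTheory Pool.Agent.Helper15
open Pool.Agent.Helper4.CB (PointG)
open Pool.Agent.Helper92.CB (eqn Th Ti Ti_Th eval_Th Th_eqn no_sq_mul' prime_conic)

/-- Separation of functions by points. -/
theorem separate {K L S : Type} [Field K] [Field L] [Algebra K L] [CharZero L]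
    [CommRing S] [IsDomain S] [Algebra K S] [CharZero S] (a b : S) (ha : a ≠ 0) (hb : b ≠ 0)
    (H : ∀ d : S, d ≠ 0 → ∃ φ : S →ₐ[K] L, φ d ≠ 0 ∧
      ∀ Y : Finset L, ∃ x y : L, y ∉ Y ∧ x ^ 2 = φ a * y ^ 2 + φ b)
    (g : MvPolynomial (Fin 2) S ⧸ Ideal.span {eqn a b})
    (hg : ∀ ψ : (MvPolynomial (Fin 2) S ⧸ Ideal.span {eqn a b}) →ₐ[K] L, ψ g = 0) : g = 0 := by
  classical
  obtain ⟨G, rfl⟩ := Ideal.Quotient.mk_surjective g
  set f : S[X][X] := X ^ 2 - C (C a * X ^ 2 + C b) with hf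
  have hfm : f.Monic := monic_X_pow_sub_C _ (by norm_num)
  set r := Th S G %ₘ f with hr
  by_cases hr0 : r = 0
  · rw [hr, modByMonic_eq_zero_iff_dvd hfm] at hr0
    obtain ⟨H1, hH1⟩ := hr0
    rw [Ideal.Quotient.eq_zero_iff_mem, Ideal.mem_span_singleton]
    refine ⟨Ti S H1, ?_⟩
    rw [← Ti_Th S G, hH1, map_mul, hf, ← Th_eqn, Ti_Th]
  exfalso
  have hdeg : r.natDegree < 2 := by
    have hfd : f.natDegree = 2 := natDegree_X_pow_sub_C
    have := natDegree_modByMonic_lt (Th S G) hfm (by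
      intro h1
      rw [h1] at hfd
      simp at hfd)
    rwa [hfd] at this
  have hrep : r = C (r.coeff 1) * X + C (r.coeff 0) :=
    eq_X_add_C_of_natDegree_le_one (by omega)
  set g0 := r.coeff 0
  set g1 := r.coeff 1
  set q : S[X] := C a * X ^ 2 + C b with hq
  set N : S[X] := g0 ^ 2 - q * g1 ^ 2 with hN
  have hN0 : N ≠ 0 := by
    intro h
    rw [hN, sub_eq_zero] at h
    by_cases h1 : g1 = 0
    · rw [h1] at h
      have h2 : g0 = 0 := by
        have : g0 ^ 2 = 0 := by rw [h]; ring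
        exact pow_eq_zero_iff (two_ne_zero) |>.mp this
      apply hr0
      rw [hrep, h1, h2]
      simp
    · exact no_sq_mul' ha hb g0 g1 h1 h
  set n := N.leadingCoeff with hn
  have hn0 : n ≠ 0 := leadingCoeff_ne_zero.mpr hN0
  obtain ⟨φ, hφ, hxy⟩ := H n hn0
  set σ : S →+* L := (φ : S →+* L) with hσ
  have hσn : σ n ≠ 0 := hφ
  have hNL : N.map σ ≠ 0 := by
    intro h
    apply hσn
    rw [hn, leadingCoeff, ← coeff_map, h, coeff_zero]
  obtain ⟨x, y, hyY, hx'⟩ := hxy (N.map σ).roots.toFinset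
  have hNy : (N.map σ).eval y ≠ 0 := by
    intro h
    apply hyY
    rw [Multiset.mem_toFinset, mem_roots hNL]
    exact h
  have hx' : x ^ 2 = σ a * y ^ 2 + σ b := hx'
  -- the point
  set ψ0 : MvPolynomial (Fin 2) S →+* L := MvPolynomial.eval₂Hom σ ![x, y] with hψ0
  have hker : ∀ p ∈ Ideal.span {eqn a b}, ψ0 p = 0 := by
    intro p hp
    rw [Ideal.mem_span_singleton] at hp
    obtain ⟨t, rfl⟩ := hp
    have : ψ0 (eqn a b) = 0 := by
      simp only [hψ0, eqn, map_sub, map_mul, map_pow, MvPolynomial.eval₂Hom_X',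
        MvPolynomial.eval₂Hom_C, Matrix.cons_val_zero, Matrix.cons_val_one]
      rw [hx']
      ring
    rw [map_mul, this, zero_mul]
  have hcomm : ∀ k : K, ψ0 (algebraMap K (MvPolynomial (Fin 2) S) k) = algebraMap K L k := by
    intro k
    have h1 : algebraMap K (MvPolynomial (Fin 2) S) k =
        MvPolynomial.C (algebraMap K S k) := rfl
    rw [h1, hψ0, MvPolynomial.coe_eval₂Hom, MvPolynomial.eval₂_C]
    exact φ.commutes k
  let ψ : (MvPolynomial (Fin 2) S ⧸ Ideal.span {eqn a b}) →ₐ[K] L :=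
    { Ideal.Quotient.lift (Ideal.span {eqn a b}) ψ0 hker with
      commutes' := fun k => by
        show Ideal.Quotient.lift (Ideal.span {eqn a b}) ψ0 hker
          (Ideal.Quotient.mk _ (algebraMap K (MvPolynomial (Fin 2) S) k)) = _
        rw [Ideal.Quotient.lift_mk, hcomm] }
  have hG0 : ψ0 G = 0 := by
    have := hg ψ
    exact this
  have h1 : (Th S G).eval₂ (eval₂RingHom σ y) x = 0 := by
    rw [eval_Th]
    exact hG0
  have hfe : f.eval₂ (eval₂RingHom σ y) x = 0 := by
    rw [hf, ← Th_eqn, eval_Th]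
    exact hker _ (Ideal.mem_span_singleton_self _)
  have h2 : r.eval₂ (eval₂RingHom σ y) x = 0 := by
    have h3 := modByMonic_add_div (Th S G) f
    rw [← h3, eval₂_add, eval₂_mul, hfe, zero_mul, add_zero] at h1
    exact h1
  have hqe : (q.map σ).eval y = x ^ 2 := by
    rw [hq, hx']
    simp
  have h4 : (g1.map σ).eval y * x + (g0.map σ).eval y = 0 := by
    rw [hrep, eval₂_add, eval₂_mul, eval₂_C, eval₂_X, eval₂_C] at h2
    rw [Polynomial.eval_map, Polynomial.eval_map]
    simpa using h2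
  apply hNy
  rw [hN, Polynomial.map_sub, Polynomial.map_mul, Polynomial.map_pow, Polynomial.map_pow, eval_sub,
    eval_mul, eval_pow, eval_pow, hqe]
  have h5 : (g0.map σ).eval y = - ((g1.map σ).eval y * x) := by linear_combination h4
  rw [h5]
  ring

/-- `Sol` implies potential density. -/
theorem pd_of_sol (K : Type) [Field K] [NumberField K] (S : Type) [CommRing S] [IsDomain S]
    [Algebra K S] (a b : S) (ha : a ≠ 0) (hb : b ≠ 0) (h : Sol K S a b)
    (X : Scheme.{0}) (s : X ⟶ Spec (CommRingCat.of K)) [IrreducibleSpace X]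
    (hX : BirationalOver K X (Spec (CommRingCat.of (MvPolynomial (Fin 2) S ⧸ Ideal.span
      {(MvPolynomial.X 0 ^ 2 - MvPolynomial.C a * MvPolynomial.X 1 ^ 2 - MvPolynomial.C b :
        MvPolynomial (Fin 2) S)}))) s
      (Spec.map (CommRingCat.ofHom (algebraMap K (MvPolynomial (Fin 2) S ⧸ Ideal.span
      {(MvPolynomial.X 0 ^ 2 - MvPolynomial.C a * MvPolynomial.X 1 ^ 2 - MvPolynomial.C b :
        MvPolynomial (Fin 2) S)}))))) :
    PotentiallyDense K X s := by
  obtain ⟨L, iL, iA, hfin, hL⟩ := h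
  have : CharZero L := charZero_of_injective_algebraMap (algebraMap K L).injective
  have : CharZero S := charZero_of_injective_algebraMap (algebraMap K S).injective
  refine PotentiallyDense.of_birational K X _ s _ hX
    ⟨L, inferInstance, inferInstance, inferInstance, ?_⟩
  refine dense_ratPts_spec K L _ (fun g hg => separate a b ha hb (fun d hd => ?_) g hg)
  obtain ⟨φ, hφ, x, y, z, h0, h1⟩ := hL (d * (a * b)) (mul_ne_zero hd (mul_ne_zero ha hb))
  rw [map_mul, map_mul] at hφ
  refine ⟨φ, left_ne_zero_of_mul hφ, fun Y => ?_⟩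
  exact Pool.Agent.Helper56.CB.conic_points (left_ne_zero_of_mul (right_ne_zero_of_mul hφ))
    (right_ne_zero_of_mul (right_ne_zero_of_mul hφ)) h0 h1 Y

/-- Potential density implies `Sol`. -/
theorem sol_of_pd (K : Type) [Field K] [NumberField K] (S : Type) [CommRing S] [IsDomain S]
    [Algebra K S] (a b : S) (ha : a ≠ 0) (hb : b ≠ 0)
    (h : PotentiallyDense K (Spec (CommRingCat.of (MvPolynomial (Fin 2) S ⧸ Ideal.span
      {(MvPolynomial.X 0 ^ 2 - MvPolynomial.C a * MvPolynomial.X 1 ^ 2 - MvPolynomial.C b :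
        MvPolynomial (Fin 2) S)})))
      (Spec.map (CommRingCat.ofHom (algebraMap K (MvPolynomial (Fin 2) S ⧸ Ideal.span
      {(MvPolynomial.X 0 ^ 2 - MvPolynomial.C a * MvPolynomial.X 1 ^ 2 - MvPolynomial.C b :
        MvPolynomial (Fin 2) S)}))))) : Sol K S a b := by
  obtain ⟨L, iL, iA, hfin, hd⟩ := h
  refine ⟨L, iL, iA, hfin, fun f hf => ?_⟩
  have : CharZero S := charZero_of_injective_algebraMap (algebraMap K S).injective
  have hpr := prime_conic S ha hb
  set I : Ideal (MvPolynomial (Fin 2) S) := Ideal.span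
      {(MvPolynomial.X 0 ^ 2 - MvPolynomial.C a * MvPolynomial.X 1 ^ 2 - MvPolynomial.C b :
        MvPolynomial (Fin 2) S)} with hI
  have hdom : IsDomain (MvPolynomial (Fin 2) S ⧸ I) := Ideal.Quotient.isDomain I
  have hf0 : (Ideal.Quotient.mk I (MvPolynomial.C f)) ≠ 0 := by
    intro h0
    rw [Ideal.Quotient.eq_zero_iff_mem, hI, Ideal.mem_span_singleton] at h0
    obtain ⟨t, ht⟩ := h0
    have h1 := congrArg (Th S) ht
    rw [map_mul, Th_eqn] at h1
    have hfm : (X ^ 2 - C (C a * X ^ 2 + C b) : S[X][X]).Monic :=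
      monic_X_pow_sub_C _ (by norm_num)
    have hfd : (X ^ 2 - C (C a * X ^ 2 + C b) : S[X][X]).natDegree = 2 := natDegree_X_pow_sub_C
    have h2 : Th S (MvPolynomial.C f) = C (C f) := by simp [Th]
    rw [h2] at h1
    have hCf : (C (C f) : S[X][X]) ≠ 0 := C_ne_zero.mpr (C_ne_zero.mpr hf)
    have ht0 : Th S t ≠ 0 := by
      intro h3
      rw [h3, mul_zero] at h1
      exact hCf h1
    have h4 := congrArg natDegree h1
    rw [natDegree_C, natDegree_mul hfm.ne_zero ht0, hfd] at h4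
    omega
  by_contra hcon
  push Not at hcon
  apply hf0
  refine Pool.Agent.Helper37.PD.sep_of_dense K L _ hd _ (fun φ => ?_)
  by_contra hφ
  have hcomp : ∃ χ : S →ₐ[K] L, ∀ u : S, χ u = φ (Ideal.Quotient.mk I (MvPolynomial.C u)) := by
    refine ⟨{ (φ : (MvPolynomial (Fin 2) S ⧸ I) →+* L).comp
        ((Ideal.Quotient.mk I).comp MvPolynomial.C) with
      commutes' := fun k => ?_ }, fun u => rfl⟩
    show φ (Ideal.Quotient.mk I (MvPolynomial.C (algebraMap K S k))) = _
    exact φ.commutes k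
  obtain ⟨χ, hχ⟩ := hcomp
  apply hcon χ (by rw [hχ]; exact hφ)
  refine ⟨φ (Ideal.Quotient.mk I (MvPolynomial.X 0)), φ (Ideal.Quotient.mk I (MvPolynomial.X 1)),
    1, Or.inr (Or.inr one_ne_zero), ?_⟩
  have h0 : φ (Ideal.Quotient.mk I (MvPolynomial.X 0 ^ 2 - MvPolynomial.C a *
      MvPolynomial.X 1 ^ 2 - MvPolynomial.C b)) = 0 := by
    have : Ideal.Quotient.mk I (MvPolynomial.X 0 ^ 2 - MvPolynomial.C a *
      MvPolynomial.X 1 ^ 2 - MvPolynomial.C b) = 0 :=
      Ideal.Quotient.eq_zero_iff_mem.mpr (Ideal.mem_span_singleton_self _)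
    rw [this, map_zero]
  rw [hχ, hχ]
  simp only [map_sub, map_mul, map_pow] at h0
  linear_combination h0

/-- **GOING UP.** A conic bundle over `Spec R × A^1` with all factors of degree at most `dm` over
`Spec R` is potentially dense if its restriction to one section `Spec R × {c}` is. -/
theorem going_up (K : Type) [Field K] [NumberField K] (dm : ℕ) (hdm : 1 ≤ dm)
    (hpw : ∀ (M : Type) [Field M] [NumberField M], PointG M dm)
    (R : Type) [CommRing R] [IsDomain R] [Algebra K R] (a b : R[X]) (c : K)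
    (ha : a.eval (algebraMap K R c) ≠ 0) (hb : b.eval (algebraMap K R c) ≠ 0)
    (d : R) (hd : d ≠ 0) (m : Multiset R[X]) (hm : C d * (a * b) = m.prod)
    (hmd : ∀ F ∈ m, F.natDegree ≤ dm)
    (h : PotentiallyDense K (Spec (CommRingCat.of (MvPolynomial (Fin 2) R ⧸ Ideal.span
      {(MvPolynomial.X 0 ^ 2 - MvPolynomial.C (a.eval (algebraMap K R c)) * MvPolynomial.X 1 ^ 2 -
        MvPolynomial.C (b.eval (algebraMap K R c)) : MvPolynomial (Fin 2) R)})))
      (Spec.map (CommRingCat.ofHom (algebraMap K (MvPolynomial (Fin 2) R ⧸ Ideal.span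
      {(MvPolynomial.X 0 ^ 2 - MvPolynomial.C (a.eval (algebraMap K R c)) * MvPolynomial.X 1 ^ 2 -
        MvPolynomial.C (b.eval (algebraMap K R c)) : MvPolynomial (Fin 2) R)})))))
    (X : Scheme.{0}) (s : X ⟶ Spec (CommRingCat.of K)) [IrreducibleSpace X]
    (hX : BirationalOver K X (Spec (CommRingCat.of (MvPolynomial (Fin 2) R[X] ⧸ Ideal.span
      {(MvPolynomial.X 0 ^ 2 - MvPolynomial.C a * MvPolynomial.X 1 ^ 2 - MvPolynomial.C b :
        MvPolynomial (Fin 2) R[X])}))) s
      (Spec.map (CommRingCat.ofHom (algebraMap K (MvPolynomial (Fin 2) R[X] ⧸ Ideal.span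
      {(MvPolynomial.X 0 ^ 2 - MvPolynomial.C a * MvPolynomial.X 1 ^ 2 - MvPolynomial.C b :
        MvPolynomial (Fin 2) R[X])}))))) :
    PotentiallyDense K X s := by
  have ha0 : a ≠ 0 := by
    rintro rfl
    exact ha eval_zero
  have hb0 : b ≠ 0 := by
    rintro rfl
    exact hb eval_zero
  exact pd_of_sol K R[X] a b ha0 hb0
    (sol_step K dm hdm hpw R a b c ha hb d hd m hm hmd (sol_of_pd K R _ _ ha hb h)) X s hX

end Pool.Agent.Helper82.CB
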