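import Mathlib

/-!
# CB, clean form: conics over `k(t)` have points (`k` algebraically closed), and over a finite
extension in general
-/

set_option autoImplicit false

namespace Pool.Agent.Helper82.CB

open Polynomial

variable {k : Type*} [Field k] [IsAlgClosed k]

/-- `a` is a square modulo `b` if `b` has no multiple root -/
theorem exists_sq_mod (a b : k[X]) (hb : b ≠ 0) (hn : b.roots.Nodup) (hb1 : 0 < b.natDegree) :
    ∃ c : k[X], c.natDegree < b.natDegree ∧ b ∣ c ^ 2 - a := by
  classical
  have hs : ∀ r : k, ∃ s : k, s ^ 2 = a.eval r := fun r =>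
    IsAlgClosed.exists_pow_nat_eq (a.eval r) (n := 2) (by norm_num)
  choose s hs using hs
  set c : k[X] := Lagrange.interpolate b.roots.toFinset id s with hc
  have hinj : Set.InjOn (id : k → k) b.roots.toFinset := fun x _ y _ h => h
  have hdeg : c.natDegree < b.natDegree := by
    have h1 : c.degree < (b.roots.toFinset.card : WithBot ℕ) :=
      Lagrange.degree_interpolate_lt s hinj
    have h2 : b.roots.toFinset.card ≤ b.natDegree :=
      (Multiset.toFinset_card_le _).trans (card_roots' b)
    by_cases h0 : c = 0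
    · rw [h0, natDegree_zero]
      exact hb1
    · rw [degree_eq_natDegree h0] at h1
      have h3 : c.natDegree < b.roots.toFinset.card := by exact_mod_cast h1
      omega
  refine ⟨c, hdeg, ?_⟩
  by_cases h0 : c ^ 2 - a = 0
  · rw [h0]
    exact dvd_zero _
  rw [IsAlgClosed.dvd_iff_roots_le_roots hb h0, Multiset.le_iff_subset hn]
  intro r hr
  rw [mem_roots h0, IsRoot, eval_sub, eval_pow, hc]
  have := Lagrange.eval_interpolate_at_node (s := b.roots.toFinset) (v := id) s hinj
    (Multiset.mem_toFinset.mpr hr)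
  simp only [id] at this
  rw [this, hs, sub_self]

/-- composition step of the descent -/
theorem compose_step {R : Type*} [CommRing R] [IsDomain R] {a b b1 c x y z : R} (hb1 : b1 ≠ 0)
    (hc : c ^ 2 - a = b * b1) (h0 : x ≠ 0 ∨ y ≠ 0 ∨ z ≠ 0) (h : x ^ 2 = a * y ^ 2 + b1 * z ^ 2) :
    ∃ x' y' z' : R, (x' ≠ 0 ∨ y' ≠ 0 ∨ z' ≠ 0) ∧ x' ^ 2 = a * y' ^ 2 + b * z' ^ 2 := by
  by_cases hz : z = 0
  · subst hz
    refine ⟨x, y, 0, ?_, ?_⟩
    · rcases h0 with h0 | h0 | h0
      · exact Or.inl h0
      · exact Or.inr (Or.inl h0)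
      · exact absurd rfl h0
    · rw [h]
      ring
  · refine ⟨c * x + a * y, c * y + x, b1 * z, Or.inr (Or.inr (mul_ne_zero hb1 hz)), ?_⟩
    have h1 : (c * x + a * y) ^ 2 - a * (c * y + x) ^ 2 = (c ^ 2 - a) * (x ^ 2 - a * y ^ 2) := by
      ring
    have h2 : x ^ 2 - a * y ^ 2 = b1 * z ^ 2 := by rw [h]; ring
    rw [hc, h2] at h1
    linear_combination h1

/-- **Tsen for conics.** -/
theorem tsen_aux (n : ℕ) : ∀ a b : k[X], a ≠ 0 → b ≠ 0 → a.natDegree + b.natDegree = n →
    ∃ x y z : k[X], (x ≠ 0 ∨ y ≠ 0 ∨ z ≠ 0) ∧ x ^ 2 = a * y ^ 2 + b * z ^ 2 := by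
  classical
  induction n using Nat.strong_induction_on with
  | _ n ih =>
  have key : ∀ a b : k[X], a ≠ 0 → b ≠ 0 → a.natDegree + b.natDegree = n →
      a.natDegree ≤ b.natDegree →
      ∃ x y z : k[X], (x ≠ 0 ∨ y ≠ 0 ∨ z ≠ 0) ∧ x ^ 2 = a * y ^ 2 + b * z ^ 2 := by
    intro a b ha hb hn hab
    rcases Nat.eq_zero_or_pos b.natDegree with hb0 | hb1
    · -- constants
      have ha0 : a.natDegree = 0 := by omega
      obtain ⟨β, hβ⟩ := IsAlgClosed.exists_pow_nat_eq (a.coeff 0) (n := 2) (by norm_num)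
      refine ⟨C β, 1, 0, Or.inr (Or.inl one_ne_zero), ?_⟩
      rw [eq_C_of_natDegree_eq_zero ha0]
      simp [← hβ]
    by_cases hnd : b.roots.Nodup
    · obtain ⟨c, hc, b1, hb1'⟩ := exists_sq_mod a b hb hnd hb1
      by_cases h0 : b1 = 0
      · refine ⟨c, 1, 0, Or.inr (Or.inl one_ne_zero), ?_⟩
        rw [h0, mul_zero, sub_eq_zero] at hb1'
        rw [hb1']
        ring
      · have hd : (b * b1).natDegree = b.natDegree + b1.natDegree := natDegree_mul hb h0
        have hd2 : (c ^ 2 - a).natDegree ≤ max (2 * c.natDegree) a.natDegree := by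
          refine (natDegree_sub_le _ _).trans ?_
          rw [natDegree_pow]
        rw [hb1', hd] at hd2
        have hlt : a.natDegree + b1.natDegree < n := by
          rcases le_max_iff.mp (le_refl (max (2 * c.natDegree) a.natDegree)) with h | h
          · omega
          · omega
        obtain ⟨x, y, z, h1, h2⟩ := ih _ hlt a b1 ha h0 rfl
        exact compose_step h0 hb1' h1 h2
    · -- a multiple root
      rw [Multiset.nodup_iff_count_le_one] at hnd
      push Not at hnd
      obtain ⟨r, hr⟩ := hnd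
      rw [count_roots] at hr
      have hdvd : (X - C r) ^ 2 ∣ b :=
        (pow_dvd_pow _ hr).trans (pow_rootMultiplicity_dvd b r)
      obtain ⟨b', hb'⟩ := hdvd
      have hb'0 : b' ≠ 0 := by
        rintro rfl
        exact hb (by rw [hb', mul_zero])
      have hX : (X - C r : k[X]) ≠ 0 := X_sub_C_ne_zero r
      have hd : b.natDegree = 2 + b'.natDegree := by
        rw [hb', natDegree_mul (pow_ne_zero _ hX) hb'0, natDegree_pow, natDegree_X_sub_C]
      obtain ⟨x, y, z, h1, h2⟩ := ih (a.natDegree + b'.natDegree) (by omega) a b' ha hb'0 rfl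
      refine ⟨(X - C r) * x, (X - C r) * y, z, ?_, ?_⟩
      · rcases h1 with h1 | h1 | h1
        · exact Or.inl (mul_ne_zero hX h1)
        · exact Or.inr (Or.inl (mul_ne_zero hX h1))
        · exact Or.inr (Or.inr h1)
      · rw [hb', mul_pow, h2]
        ring
  intro a b ha hb hn
  rcases le_total a.natDegree b.natDegree with hab | hab
  · exact key a b ha hb hn hab
  · obtain ⟨x, y, z, h1, h2⟩ := key b a hb ha (by omega) hab
    refine ⟨x, z, y, ?_, ?_⟩
    · tauto
    · rw [h2]
      ring

theorem tsen (a b : k[X]) (ha : a ≠ 0) (hb : b ≠ 0) :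
    ∃ x y z : k[X], (x ≠ 0 ∨ y ≠ 0 ∨ z ≠ 0) ∧ x ^ 2 = a * y ^ 2 + b * z ^ 2 :=
  tsen_aux _ a b ha hb rfl

theorem tsen_finite (K : Type) [Field K] (a b : K[X]) (ha : a ≠ 0) (hb : b ≠ 0) :
    ∃ (L : Type) (_ : Field L) (_ : Algebra K L), FiniteDimensional K L ∧
      ∃ x y z : L[X], (x ≠ 0 ∨ y ≠ 0 ∨ z ≠ 0) ∧
        x ^ 2 = a.map (algebraMap K L) * y ^ 2 + b.map (algebraMap K L) * z ^ 2 := by
  classical
  set A := AlgebraicClosure K with hA
  have hinj : Function.Injective (algebraMap K A) := (algebraMap K A).injective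
  obtain ⟨x, y, z, h1, h2⟩ := tsen (a.map (algebraMap K A)) (b.map (algebraMap K A))
    ((Polynomial.map_ne_zero_iff hinj).mpr ha) ((Polynomial.map_ne_zero_iff hinj).mpr hb)
  set S : Set A := x.coeffs ∪ y.coeffs ∪ z.coeffs with hS
  have hfin : Finite S := by
    apply Set.Finite.to_subtype
    exact ((Finset.finite_toSet _).union (Finset.finite_toSet _)).union (Finset.finite_toSet _)
  set F := IntermediateField.adjoin K S with hF
  have hfd : FiniteDimensional K F :=
    IntermediateField.finiteDimensional_adjoin fun s _ => Algebra.IsIntegral.isIntegral s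
  have hlift : ∀ p : A[X], (p.coeffs : Set A) ⊆ S → ∃ q : F[X], q.map (algebraMap F A) = p := by
    intro p hp
    have : p ∈ lifts (algebraMap F A) := by
      rw [lifts_iff_coeff_lifts]
      intro n
      by_cases h0 : p.coeff n = 0
      · exact ⟨0, by rw [h0, map_zero]⟩
      · exact ⟨⟨p.coeff n, IntermediateField.subset_adjoin K S
          (hp (Finset.mem_coe.mpr (mem_coeffs_iff.mpr ⟨n, mem_support_iff.mpr h0, rfl⟩)))⟩, rfl⟩
    exact (mem_lifts _).mp this
  obtain ⟨x', hx⟩ := hlift x (by rw [hS]; intro t ht; exact Or.inl (Or.inl ht))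
  obtain ⟨y', hy⟩ := hlift y (by rw [hS]; intro t ht; exact Or.inl (Or.inr ht))
  obtain ⟨z', hz⟩ := hlift z (by rw [hS]; intro t ht; exact Or.inr ht)
  refine ⟨F, inferInstance, inferInstance, hfd, x', y', z', ?_, ?_⟩
  · rcases h1 with h | h | h
    · left
      rintro rfl
      exact h (by rw [← hx, Polynomial.map_zero])
    · right; left
      rintro rfl
      exact h (by rw [← hy, Polynomial.map_zero])
    · right; right
      rintro rfl
      exact h (by rw [← hz, Polynomial.map_zero])
  · have hinjF : Function.Injective (algebraMap F A) := (algebraMap F A).injective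
    apply Polynomial.map_injective _ hinjF
    rw [Polynomial.map_add, Polynomial.map_mul, Polynomial.map_mul, Polynomial.map_pow,
      Polynomial.map_pow, Polynomial.map_pow, hx, hy, hz, Polynomial.map_map, Polynomial.map_map,
      ← IsScalarTower.algebraMap_eq K F A]
    exact h2

end Pool.Agent.Helper82.CB
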