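import Pool.Agent.Helper82.CB.Step
import Pool.Agent.Helper82.CB.Tsen
import Pool.Agent.Helper92.CB.Dens

/-!
# CB, clean form: the property `Sol` and its induction step
-/

set_option autoImplicit false

namespace Pool.Agent.Helper82.CB

open Polynomial NumberField
open Pool.Agent.Helper4.CB (PointG)

/-- Over one finite extension `L` of `K` the conics `x ^ 2 = φ a y ^ 2 + φ b z ^ 2` have points for
a dense set of `L`-points `φ` of `R`. -/
def Sol (K R : Type) [Field K] [CommRing R] [Algebra K R] (a b : R) : Prop :=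
  ∃ (L : Type) (_ : Field L) (_ : Algebra K L), FiniteDimensional K L ∧
    ∀ f : R, f ≠ 0 → ∃ φ : R →ₐ[K] L, φ f ≠ 0 ∧ Pt (φ a) (φ b)

/-- **STEP.** one more variable: the symbol `(a, b)` over `R[X]` is good as soon as its restriction
to one section `X = c` is good and all factors of `a b` have degree at most `dm`. -/
theorem sol_step (K : Type) [Field K] [NumberField K] (dm : ℕ) (hdm : 1 ≤ dm)
    (hpw : ∀ (M : Type) [Field M] [NumberField M], PointG M dm)
    (R : Type) [CommRing R] [IsDomain R] [Algebra K R] (a b : R[X]) (c : K)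
    (ha : a.eval (algebraMap K R c) ≠ 0) (hb : b.eval (algebraMap K R c) ≠ 0)
    (d : R) (hd : d ≠ 0) (s : Multiset R[X]) (hs : C d * (a * b) = s.prod)
    (hsd : ∀ F ∈ s, F.natDegree ≤ dm)
    (h : Sol K R (a.eval (algebraMap K R c)) (b.eval (algebraMap K R c))) : Sol K R[X] a b := by
  classical
  obtain ⟨M, iM, iKM, hfM, hM⟩ := h
  have hch : CharZero M := charZero_of_injective_algebraMap (algebraMap K M).injective
  have hNM : NumberField M := NumberField.of_module_finite K M
  obtain ⟨L, iL, iML, hfL, hL⟩ := field_step M dm hdm (hpw M) a.natDegree b.natDegree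
  let iKL : Algebra K L := ((algebraMap M L).comp (algebraMap K M)).toAlgebra
  have htower : IsScalarTower K M L := IsScalarTower.of_algebraMap_eq (fun x => rfl)
  have hfKL : FiniteDimensional K L := FiniteDimensional.trans K M L
  refine ⟨L, iL, iKL, hfKL, fun f hf => ?_⟩
  set c' := algebraMap K R c with hc'
  have hlc : f.leadingCoeff ≠ 0 := leadingCoeff_ne_zero.mpr hf
  obtain ⟨φ, hφ, hpt⟩ := hM (f.leadingCoeff * (d * (a.eval c' * b.eval c')))
    (mul_ne_zero hlc (mul_ne_zero hd (mul_ne_zero ha hb)))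
  rw [map_mul, map_mul, map_mul] at hφ
  have hφl : φ f.leadingCoeff ≠ 0 := left_ne_zero_of_mul hφ
  have hφd : φ d ≠ 0 := left_ne_zero_of_mul (right_ne_zero_of_mul hφ)
  have hφab := right_ne_zero_of_mul (right_ne_zero_of_mul hφ)
  have hφa : φ (a.eval c') ≠ 0 := left_ne_zero_of_mul hφab
  have hφb : φ (b.eval c') ≠ 0 := right_ne_zero_of_mul hφab
  set ρ : R →+* M := (φ : R →+* M) with hρ
  have hρc : ∀ p : R[X], (p.map ρ).eval (algebraMap K M c) = φ (p.eval c') := by
    intro p
    have : algebraMap K M c = ρ c' := (φ.commutes c).symm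
    rw [this, eval_map, eval₂_at_apply]
    rfl
  have hfm : f.map ρ ≠ 0 := by
    intro h0
    apply hφl
    have : (f.map ρ).coeff f.natDegree = 0 := by rw [h0, coeff_zero]
    rwa [coeff_map] at this
  obtain ⟨t, htZ, -, -, htp⟩ := hL (a.map ρ) (b.map ρ) (algebraMap K M c) (φ d)
    (s.map (Polynomial.map ρ)) natDegree_map_le natDegree_map_le
    (by rw [hρc]; exact hφa) (by rw [hρc]; exact hφb) hφd
    (by
      have := congrArg (mapRingHom ρ) hs
      rw [map_multiset_prod, map_mul, map_mul, coe_mapRingHom, Polynomial.map_C] at this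
      exact this)
    (by
      intro F hF
      rw [Multiset.mem_map] at hF
      obtain ⟨G, hG, rfl⟩ := hF
      exact natDegree_map_le.trans (hsd G hG))
    (by rw [hρc, hρc]; exact hpt)
    (f.map ρ).roots.toFinset
  set σ : R →+* L := (algebraMap M L).comp ρ with hσ
  let ψ : R[X] →ₐ[K] L :=
    { eval₂RingHom σ (algebraMap M L t) with
      commutes' := fun k => by
        show eval₂ σ (algebraMap M L t) (algebraMap K R[X] k) = algebraMap K L k
        have h1 : algebraMap K R[X] k = C (algebraMap K R k) := rfl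
        rw [h1, eval₂_C]
        show algebraMap M L (φ (algebraMap K R k)) = _
        rw [φ.commutes]
        rfl }
  have hψ : ∀ p : R[X], ψ p = algebraMap M L ((p.map ρ).eval t) := by
    intro p
    show eval₂ σ (algebraMap M L t) p = _
    rw [eval_map, hom_eval₂]
  refine ⟨ψ, ?_, ?_⟩
  · rw [hψ]
    intro h0
    apply htZ
    rw [Multiset.mem_toFinset, mem_roots hfm, IsRoot]
    exact (algebraMap M L).injective (by rw [h0, map_zero])
  · rw [hψ, hψ]
    exact htp

/-- the property does not depend on the presentation of the ring -/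
theorem Sol.of_equiv {K R S : Type} [Field K] [CommRing R] [CommRing S] [Algebra K R] [Algebra K S]
    (e : R ≃ₐ[K] S) {a b : R} (h : Sol K S (e a) (e b)) : Sol K R a b := by
  obtain ⟨L, iL, iA, hfin, hL⟩ := h
  refine ⟨L, iL, iA, hfin, fun f hf => ?_⟩
  obtain ⟨φ, h1, h2⟩ := hL (e f) (by rwa [Ne, map_eq_zero_iff _ e.injective])
  exact ⟨φ.comp (e : R →ₐ[K] S), h1, h2⟩

/-- **START**, polynomials in one variable: Tsen. -/
theorem sol_one (K : Type) [Field K] [NumberField K] (a b : K[X]) (ha : a ≠ 0) (hb : b ≠ 0) :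
    Sol K K[X] a b := by
  classical
  obtain ⟨L, iL, iA, hfin, x, y, z, h0, h1⟩ := tsen_finite K a b ha hb
  refine ⟨L, iL, iA, hfin, fun f hf => ?_⟩
  have hch : CharZero L := charZero_of_injective_algebraMap (algebraMap K L).injective
  have hfL : f.map (algebraMap K L) ≠ 0 :=
    (Polynomial.map_ne_zero_iff (algebraMap K L).injective).mpr hf
  -- a nonzero one among x, y, z
  obtain ⟨u, hu, hu'⟩ : ∃ u : L[X], u ≠ 0 ∧ (u = x ∨ u = y ∨ u = z) := by
    rcases h0 with h | h | h
    · exact ⟨x, h, Or.inl rfl⟩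
    · exact ⟨y, h, Or.inr (Or.inl rfl)⟩
    · exact ⟨z, h, Or.inr (Or.inr rfl)⟩
  obtain ⟨t, ht⟩ := Pool.Agent.Helper56.CB.exists_nonroot {f.map (algebraMap K L), u}
    (by
      intro p hp
      rw [Finset.mem_insert, Finset.mem_singleton] at hp
      rcases hp with rfl | rfl
      · exact hfL
      · exact hu)
  have ht1 := ht (f.map (algebraMap K L)) (by simp)
  have ht2 := ht u (by simp)
  have hae : ∀ p : K[X], (aeval t : K[X] →ₐ[K] L) p = (p.map (algebraMap K L)).eval t := by
    intro p
    rw [aeval_def, eval_map]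
  refine ⟨aeval t, ?_, x.eval t, y.eval t, z.eval t, ?_, ?_⟩
  · rw [hae]
    exact ht1
  · rcases hu' with rfl | rfl | rfl
    · exact Or.inl ht2
    · exact Or.inr (Or.inl ht2)
    · exact Or.inr (Or.inr ht2)
  · rw [hae, hae, ← eval_pow, h1]
    simp

end Pool.Agent.Helper82.CB
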