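import Pool.Agent.Helper82.CB.Tw
import Pool.Agent.Helper4.CB.GEN
import Pool.Agent.Helper56.CB.Conic

/-!
# CB, clean form: one more variable
-/

set_option autoImplicit false

namespace Pool.Agent.Helper82.CB

open Polynomial NumberField
open Pool.Agent.Helper16.CB (LC)
open Pool.Agent.Helper4.CB (PointG)

/-- the conic `x ^ 2 = a y ^ 2 + b z ^ 2` has a point -/
def Pt {L : Type*} [Field L] (a b : L) : Prop :=
  ∃ x y z : L, (x ≠ 0 ∨ y ≠ 0 ∨ z ≠ 0) ∧ x ^ 2 = a * y ^ 2 + b * z ^ 2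

theorem pt_twist {L : Type*} [Field L] {α β u v η g h : L} (hu : u ≠ 0) (hv : v ≠ 0) (hη : η ≠ 0)
    (hN : g ^ 2 - (u ^ 2 * α) * h ^ 2 ≠ 0)
    (hp : Pt (u ^ 2 * α) ((η ^ 2)⁻¹ * ((v ^ 2 * β) * (g ^ 2 - (u ^ 2 * α) * h ^ 2)))) : Pt α β := by
  obtain ⟨x, y, z, h0, h1⟩ := hp
  by_cases hz : z = 0
  · subst hz
    refine ⟨x, u * y, 0, ?_, ?_⟩
    · rcases h0 with h0 | h0 | h0
      · exact Or.inl h0
      · exact Or.inr (Or.inl (mul_ne_zero hu h0))
      · exact absurd rfl h0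
    · rw [h1]
      ring
  · refine ⟨x * g + u ^ 2 * α * y * h, u * (x * h + y * g),
      η⁻¹ * v * (g ^ 2 - (u ^ 2 * α) * h ^ 2) * z,
      Or.inr (Or.inr (mul_ne_zero (mul_ne_zero (mul_ne_zero (inv_ne_zero hη) hv) hN) hz)), ?_⟩
    have e : (η ^ 2)⁻¹ = η⁻¹ ^ 2 := by rw [inv_pow]
    rw [e] at h1
    linear_combination (g ^ 2 - (u ^ 2 * α) * h ^ 2) * h1

theorem field_step (M : Type) [Field M] [NumberField M] (dm : ℕ) (hdm : 1 ≤ dm)
    (hpw : PointG M dm) (da db : ℕ) :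
    ∃ (L : Type) (_ : Field L) (_ : Algebra M L), FiniteDimensional M L ∧
      ∀ (A B : M[X]) (c d : M) (s : Multiset M[X]), A.natDegree ≤ da → B.natDegree ≤ db →
        A.eval c ≠ 0 → B.eval c ≠ 0 → d ≠ 0 → C d * (A * B) = s.prod →
        (∀ F ∈ s, F.natDegree ≤ dm) → Pt (A.eval c) (B.eval c) →
        ∀ Z : Finset M, ∃ t : M, t ∉ Z ∧ A.eval t ≠ 0 ∧ B.eval t ≠ 0 ∧
          Pt (algebraMap M L (A.eval t)) (algebraMap M L (B.eval t)) := by
  classical
  obtain ⟨L, iL, iA, hfin, hL⟩ := hpw (4 * da + 2 * db + 2)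
  refine ⟨L, iL, iA, hfin, ?_⟩
  intro A B c d s hda hdb hAc hBc hd hs hsd hpt Z
  obtain ⟨x', y', z', hne, hxyz⟩ := hpt
  obtain ⟨x0, y0, hy0, hxy0⟩ := Pool.Agent.Helper56.CB.conic_points hAc hBc hne hxyz {0}
  rw [Finset.mem_singleton] at hy0
  have hA0 : A ≠ 0 := by
    rintro rfl
    exact hAc eval_zero
  have hB0 : B ≠ 0 := by
    rintro rfl
    exact hBc eval_zero
  set Aw := tw c (2 * da) A with hAw
  set Bw := tw c (2 * db) B with hBw
  have hAd : Aw.natDegree ≤ 2 * da := natDegree_tw_le c (by omega)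
  have hBd : Bw.natDegree ≤ 2 * db := natDegree_tw_le c (by omega)
  have hAcf : Aw.coeff (2 * da) = A.eval c := coeff_tw c _ A
  have hBcf : Bw.coeff (2 * db) = B.eval c := coeff_tw c _ B
  have hAw0 : Aw ≠ 0 := tw_ne_zero c _ hA0
  have hBw0 : Bw ≠ 0 := tw_ne_zero c _ hB0
  have hAd' : Aw.natDegree = 2 * da :=
    le_antisymm hAd (le_natDegree_of_ne_zero (by rw [hAcf]; exact hAc))
  have hBd' : Bw.natDegree = 2 * db :=
    le_antisymm hBd (le_natDegree_of_ne_zero (by rw [hBcf]; exact hBc))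
  obtain ⟨hNd, hNl⟩ := nrm_natDegree hAd hBc (by rw [hAcf]; exact hxy0)
  set N := nrm Aw da x0 y0 with hN
  have hN0 : N ≠ 0 := by
    intro h
    rw [h, natDegree_zero] at hNd
    omega
  set b0 := B.eval c with hb0
  have hb2 : (b0 ^ 2)⁻¹ ≠ 0 := inv_ne_zero (pow_ne_zero _ hBc)
  set B' := C ((b0 ^ 2)⁻¹) * (Bw * N) with hB'
  have hBN : (Bw * N).natDegree = 2 * db + (2 * da + 2) := by
    rw [natDegree_mul hBw0 hN0, hBd', hNd]
  have hB'd : B'.natDegree = 2 * db + (2 * da + 2) := by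
    rw [hB', natDegree_C_mul hb2, hBN]
  have hB'm : B'.Monic := by
    rw [Monic, hB', leadingCoeff_mul, leadingCoeff_C, leadingCoeff_mul, hNl, leadingCoeff, hBd',
      hBcf]
    field_simp
  have hfac : ∀ P : M[X], Irreducible P → P ∣ Aw * Bw → P.natDegree ≤ dm := by
    intro P hP hPd
    have hprod : tw c (2 * da + 2 * db) s.prod = C d * (Aw * Bw) := by
      rw [← hs, hAw, hBw, ← tw_mul c (by omega) (by omega)]
      unfold tw
      rw [mul_comp, C_comp, reflect_C_mul]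
    refine factor_tw c dm hdm s (2 * da + 2 * db) ?_ ?_ hsd P hP ?_
    · rw [← hs]
      exact mul_ne_zero (C_ne_zero.mpr hd) (mul_ne_zero hA0 hB0)
    · rw [← hs, natDegree_C_mul hd, natDegree_mul hA0 hB0]
      omega
    · rw [hprod]
      exact hPd.mul_left _
  obtain ⟨w, hwZ, hwA, hwB, x, y, z, h0, h1⟩ := hL Aw B' hAw0 hB'm
    (by rw [hB'd]; exact ⟨db + (da + 1), by ring⟩)
    (by rw [natDegree_mul hAw0 hB'm.ne_zero, hAd', hB'd]; omega)
    (by
      intro P hP hPd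
      by_cases hPA : P ∣ Aw * Bw
      · exact Or.inl (hfac P hP hPA)
      right
      have hPA1 : ¬ P ∣ Aw := fun h => hPA (h.mul_right _)
      have hPB1 : ¬ P ∣ Bw := fun h => hPA (h.mul_left _)
      have hPN : P ∣ N := by
        rcases hP.prime.dvd_or_dvd hPd with h | h
        · exact absurd h hPA1
        rcases hP.prime.dvd_or_dvd h with h | h
        · exact absurd (isUnit_of_dvd_unit h (isUnit_C.mpr hb2.isUnit)) hP.not_isUnit
        rcases hP.prime.dvd_or_dvd h with h | h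
        · exact absurd h hPB1
        · exact h
      exact lc_nrm hAw0 da hy0 hB'm.ne_zero hP hPA1 hPN)
    (insert 0 (Z.image fun t => (t - c)⁻¹))
  rw [Finset.mem_insert, not_or] at hwZ
  obtain ⟨hw0, hwZ⟩ := hwZ
  have eA : Aw.eval w = (w ^ da) ^ 2 * A.eval (c + w⁻¹) := by
    rw [hAw, eval_tw c (by omega) hw0, ← pow_mul, mul_comm da 2]
  have eB : Bw.eval w = (w ^ db) ^ 2 * B.eval (c + w⁻¹) := by
    rw [hBw, eval_tw c (by omega) hw0, ← pow_mul, mul_comm db 2]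
  have eN : N.eval w = (x0 * w ^ (da + 1) + 1) ^ 2 - Aw.eval w * (y0 * w) ^ 2 := by
    rw [hN]
    unfold nrm
    simp
  have eB' : B'.eval w = (b0 ^ 2)⁻¹ * (Bw.eval w * N.eval w) := by
    rw [hB', eval_mul, eval_C, eval_mul]
  have hNw : N.eval w ≠ 0 := by
    intro h
    apply hwB
    rw [eB', h, mul_zero, mul_zero]
  have hBww : Bw.eval w ≠ 0 := by
    intro h
    apply hwB
    rw [eB', h, zero_mul, mul_zero]
  refine ⟨c + w⁻¹, ?_, ?_, ?_, ?_⟩
  · intro h
    apply hwZ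
    rw [Finset.mem_image]
    exact ⟨c + w⁻¹, h, by rw [add_sub_cancel_left, inv_inv]⟩
  · intro h
    apply hwA
    rw [eA, h, mul_zero]
  · intro h
    apply hBww
    rw [eB, h, mul_zero]
  · have hι := (algebraMap M L).injective
    have hne : ∀ t : M, t ≠ 0 → algebraMap M L t ≠ 0 := by
      intro t ht h
      exact ht (hι (by rw [h, map_zero]))
    apply pt_twist (u := algebraMap M L (w ^ da)) (v := algebraMap M L (w ^ db))
      (η := algebraMap M L b0) (g := algebraMap M L (x0 * w ^ (da + 1) + 1))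
      (h := algebraMap M L (y0 * w)) (hne _ (pow_ne_zero _ hw0)) (hne _ (pow_ne_zero _ hw0))
      (hne _ hBc)
    · have := hne _ hNw
      rw [eN, eA] at this
      simpa only [map_sub, map_mul, map_pow] using this
    · refine ⟨x, y, z, h0, ?_⟩
      rw [eB', eN, eB, eA] at h1
      rw [h1]
      simp only [map_sub, map_mul, map_pow, map_inv₀]

end Pool.Agent.Helper82.CB
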