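import Mathlib
import Pool.Agent.Helper16.CB.Defs

/-!
# CB, clean form: moving a point to infinity, the norm trick
-/

set_option autoImplicit false

namespace Pool.Agent.Helper82.CB

open Polynomial
open Pool.Agent.Helper16.CB (LC Val)

/-- `w ^ N f(c + 1/w)` -/
noncomputable def tw {F : Type*} [CommRing F] (c : F) (N : ℕ) (f : F[X]) : F[X] :=
  (f.comp (X + C c)).reflect N

section
variable {F : Type*} [Field F]

theorem natDegree_shift (c : F) (f : F[X]) : (f.comp (X + C c)).natDegree = f.natDegree := by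
  rw [natDegree_comp, natDegree_X_add_C, mul_one]

theorem tw_mul (c : F) {N M : ℕ} {f g : F[X]} (hf : f.natDegree ≤ N) (hg : g.natDegree ≤ M) :
    tw c (N + M) (f * g) = tw c N f * tw c M g := by
  unfold tw
  rw [mul_comp, reflect_mul _ _ (by rwa [natDegree_shift]) (by rwa [natDegree_shift])]

theorem tw_one (c : F) (N : ℕ) : tw c N (1 : F[X]) = X ^ N := by
  unfold tw
  rw [one_comp, reflect_one]

theorem tw_ne_zero (c : F) (N : ℕ) {f : F[X]} (hf : f ≠ 0) : tw c N f ≠ 0 := by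
  unfold tw
  rw [Ne, reflect_eq_zero_iff]
  intro h
  apply hf
  have h1 : (f.comp (X + C c)).comp (X - C c) = 0 := by rw [h, zero_comp]
  rw [comp_assoc] at h1
  simpa using h1

theorem coeff_tw (c : F) (N : ℕ) (f : F[X]) : (tw c N f).coeff N = f.eval c := by
  unfold tw
  rw [coeff_reflect, revAt_le (le_refl N), Nat.sub_self, coeff_zero_eq_eval_zero, eval_comp]
  simp

theorem natDegree_tw_le (c : F) {N : ℕ} {f : F[X]} (hf : f.natDegree ≤ N) :
    (tw c N f).natDegree ≤ N := by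
  unfold tw
  refine natDegree_reflect_le.trans ?_
  rw [natDegree_shift]
  exact max_le (le_refl N) hf

theorem eval_tw (c : F) {N : ℕ} {f : F[X]} (hf : f.natDegree ≤ N) {w : F} (hw : w ≠ 0) :
    (tw c N f).eval w = w ^ N * f.eval (c + w⁻¹) := by
  unfold tw
  have hi : Invertible (w⁻¹) := invertibleOfNonzero (inv_ne_zero hw)
  have h := eval₂_reflect_mul_pow (RingHom.id F) (w⁻¹) N (f.comp (X + C c))
    (by rwa [natDegree_shift])
  rw [invOf_eq_inv, inv_inv] at h
  have h1 : eval₂ (RingHom.id F) w (reflect N (f.comp (X + C c))) =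
      eval w (reflect N (f.comp (X + C c))) := rfl
  have h2 : eval₂ (RingHom.id F) w⁻¹ (f.comp (X + C c)) = f.eval (c + w⁻¹) := by
    show eval w⁻¹ (f.comp (X + C c)) = _
    rw [eval_comp]
    simp [add_comm]
  rw [h1, h2] at h
  rw [← h, mul_comm, mul_assoc, ← mul_pow, inv_mul_cancel₀ hw, one_pow, mul_one]

/-- irreducible factors after moving `c` to infinity -/
theorem factor_tw (c : F) (dm : ℕ) (hdm : 1 ≤ dm) (s : Multiset F[X]) :
    ∀ N : ℕ, s.prod ≠ 0 → s.prod.natDegree ≤ N → (∀ f ∈ s, f.natDegree ≤ dm) →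
    ∀ P : F[X], Irreducible P → P ∣ tw c N s.prod → P.natDegree ≤ dm := by
  induction s using Multiset.induction_on with
  | empty =>
    intro N _ _ _ P hP hd
    rw [Multiset.prod_zero, tw_one] at hd
    have h1 : P ∣ X := hP.prime.dvd_of_dvd_pow hd
    exact (natDegree_le_of_dvd h1 X_ne_zero).trans (by rw [natDegree_X]; exact hdm)
  | cons f s ih =>
    intro N h0 hN hs P hP hd
    rw [Multiset.prod_cons] at h0 hN hd
    have hf0 : f ≠ 0 := left_ne_zero_of_mul h0
    have hs0 : s.prod ≠ 0 := right_ne_zero_of_mul h0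
    rw [natDegree_mul hf0 hs0] at hN
    have e : N = f.natDegree + (N - f.natDegree) := by omega
    rw [e, tw_mul c (le_refl _) (by omega)] at hd
    rcases hP.prime.dvd_or_dvd hd with h | h
    · refine (natDegree_le_of_dvd h (tw_ne_zero c _ hf0)).trans ?_
      exact (natDegree_tw_le c (le_refl _)).trans (hs f (Multiset.mem_cons_self f s))
    · exact ih _ hs0 (by omega) (fun g hg => hs g (Multiset.mem_cons_of_mem hg)) P hP h

/-- the norm `x ^ 2 - A y ^ 2`, `x = x0 X ^ (e + 1) + 1`, `y = y0 X` -/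
noncomputable def nrm (A : F[X]) (e : ℕ) (x0 y0 : F) : F[X] :=
  (C x0 * X ^ (e + 1) + 1) ^ 2 - A * (C y0 * X) ^ 2

theorem nrm_coeff (A : F[X]) (e : ℕ) (x0 y0 : F) :
    (nrm A e x0 y0).coeff (2 * e + 2) = x0 ^ 2 - A.coeff (2 * e) * y0 ^ 2 := by
  have e1 : nrm A e x0 y0 = C (x0 ^ 2) * X ^ (2 * e + 2) + C (2 * x0) * X ^ (e + 1) + C 1 -
      C (y0 ^ 2) * (A * X ^ 2) := by
    unfold nrm
    simp only [C_mul, C_pow, C_1, map_ofNat]
    ring
  rw [e1]
  simp only [coeff_sub, coeff_add, coeff_C_mul, coeff_X_pow, coeff_C, coeff_mul_X_pow]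
  have h1 : ¬ (2 * e + 2 = e + 1) := by omega
  have h2 : ¬ (2 * e + 2 = 0) := by omega
  simp only [h1, h2, if_true, if_false]
  ring

theorem nrm_natDegree_le (A : F[X]) (e : ℕ) (hA : A.natDegree ≤ 2 * e) (x0 y0 : F) :
    (nrm A e x0 y0).natDegree ≤ 2 * e + 2 := by
  unfold nrm
  refine (natDegree_sub_le _ _).trans (max_le ?_ ?_)
  · refine natDegree_pow_le.trans ?_
    have : (C x0 * X ^ (e + 1) + 1 : F[X]).natDegree ≤ e + 1 := by
      refine (natDegree_add_le _ _).trans (max_le (natDegree_C_mul_X_pow_le _ _) ?_)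
      rw [natDegree_one]
      omega
    omega
  · refine natDegree_mul_le.trans ?_
    have h1 : ((C y0 * X : F[X]) ^ 2).natDegree ≤ 2 := by
      refine natDegree_pow_le.trans ?_
      have : (C y0 * X : F[X]).natDegree ≤ 1 := by simpa using natDegree_C_mul_X_pow_le y0 1
      omega
    omega

theorem nrm_natDegree {A : F[X]} {e : ℕ} (hA : A.natDegree ≤ 2 * e) {x0 y0 b0 : F}
    (hb0 : b0 ≠ 0) (h : x0 ^ 2 = A.coeff (2 * e) * y0 ^ 2 + b0) :
    (nrm A e x0 y0).natDegree = 2 * e + 2 ∧ (nrm A e x0 y0).leadingCoeff = b0 := by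
  have hc : (nrm A e x0 y0).coeff (2 * e + 2) = b0 := by
    rw [nrm_coeff, h]
    ring
  have hd : (nrm A e x0 y0).natDegree = 2 * e + 2 :=
    le_antisymm (nrm_natDegree_le A e hA x0 y0)
      (le_natDegree_of_ne_zero (by rw [hc]; exact hb0))
  exact ⟨hd, by rw [leadingCoeff, hd, hc]⟩

theorem val_of_irreducible {P : F[X]} (hP : Irreducible P) {a : F[X]} (ha : a ≠ 0) :
    ∃ n, Val (Ideal.span {P}) a n ∧ (¬ P ∣ a → n = 0) := by
  obtain ⟨n, a', h1, h2⟩ := WfDvdMonoid.max_power_factor ha hP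
  refine ⟨n, ⟨?_, ?_⟩, ?_⟩
  · rw [Ideal.span_singleton_pow, Ideal.mem_span_singleton]
    exact ⟨a', h2⟩
  · rw [Ideal.span_singleton_pow, Ideal.mem_span_singleton]
    rintro ⟨t, ht⟩
    apply h1
    refine ⟨t, ?_⟩
    rw [h2, pow_succ, mul_assoc] at ht
    exact mul_left_cancel₀ (pow_ne_zero n hP.ne_zero) ht
  · intro h
    by_contra hn
    apply h
    rw [h2]
    exact (dvd_pow_self P hn).mul_right a'

/-- a factor of the norm is free -/
theorem lc_nrm {A B : F[X]} (hA : A ≠ 0) (e : ℕ) {x0 y0 : F} (hy : y0 ≠ 0) (hB : B ≠ 0)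
    {P : F[X]} (hP : Irreducible P) (hPA : ¬ P ∣ A) (hPN : P ∣ nrm A e x0 y0) :
    LC (Ideal.span {P}) A B := by
  obtain ⟨α, hα, hα0⟩ := val_of_irreducible hP hA
  have hα0 := hα0 hPA
  subst hα0
  obtain ⟨β, hβ, -⟩ := val_of_irreducible hP hB
  refine ⟨0, β, hα, hβ, ?_⟩
  by_cases hev : Even β
  · exact Or.inl ⟨Even.zero, hev⟩
  right; right; left
  refine ⟨Even.zero, hev, ?_⟩
  -- `P` is prime to `y0 X`
  have hcop : IsCoprime P (C y0 * X) := by
    rw [hP.coprime_iff_not_dvd]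
    intro hd
    have hX : P ∣ X := by
      rcases hP.prime.dvd_or_dvd hd with h | h
      · exact absurd (isUnit_of_dvd_unit h (isUnit_C.mpr hy.isUnit)) hP.not_isUnit
      · exact h
    have h1 : P ∣ (C x0 * X ^ (e + 1) + 1) ^ 2 := by
      have : (C x0 * X ^ (e + 1) + 1 : F[X]) ^ 2 = nrm A e x0 y0 + A * (C y0 * X) ^ 2 := by
        unfold nrm
        ring
      rw [this]
      exact dvd_add hPN (((dvd_mul_of_dvd_right hX _).trans (dvd_pow_self _ two_ne_zero)).trans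
        (dvd_mul_left _ _))
    have h2 : P ∣ C x0 * X ^ (e + 1) + 1 := hP.prime.dvd_of_dvd_pow h1
    have h3 : P ∣ C x0 * X ^ (e + 1) :=
      (hX.trans (dvd_pow_self _ (Nat.succ_ne_zero e))).mul_left _
    exact hP.not_isUnit (isUnit_of_dvd_one ((dvd_add_right h3).mp h2))
  obtain ⟨u, v, huv⟩ := hcop
  refine ⟨(C x0 * X ^ (e + 1) + 1) * v, ?_⟩
  rw [zero_add, pow_one, Ideal.mem_span_singleton]
  obtain ⟨t, ht⟩ := hPN
  have h1 : A * (C y0 * X) ^ 2 = (C x0 * X ^ (e + 1) + 1) ^ 2 - P * t := by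
    rw [← ht]
    unfold nrm
    ring
  have h2 : A = A * (u * P + v * (C y0 * X)) ^ 2 := by rw [huv]; ring
  refine ⟨A * (u ^ 2 * P + 2 * u * (v * (C y0 * X))) - t * v ^ 2, ?_⟩
  calc A - ((C x0 * X ^ (e + 1) + 1) * v) ^ 2
      = A * (u * P + v * (C y0 * X)) ^ 2 - ((C x0 * X ^ (e + 1) + 1) * v) ^ 2 := by rw [← h2]
    _ = A * (u ^ 2 * P + 2 * u * (v * (C y0 * X))) * P + (A * (C y0 * X) ^ 2) * v ^ 2 -
        ((C x0 * X ^ (e + 1) + 1) * v) ^ 2 := by ring
    _ = _ := by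
      rw [h1]
      ring

end

end Pool.Agent.Helper82.CB
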